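import Pool.Agent.T2h13.SC.Leg15

set_option autoImplicit false
set_option maxHeartbeats 4000000
set_option synthInstance.maxHeartbeats 400000

/-!
# Q1 of MP_df49e3_nt

For every prime `p ≡ 1, 4 (mod 15)`, all integers `x, y` with `p = x² + 15 y²` and all `s, t ∈ ℤ_p`
with `s² = -15`, `t² = -3`,
`P_{(p-1)/2}(7 s + 16 t) ≡ (-s/p) (x/15) (2 x - p/(2 x)) (mod p²)`.
-/

namespace Pool.Agent.Results.MP_df49e3_nt.LegendreFifteen

open Finset

variable (p : ℕ) [hp : Fact p.Prime]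

/-- The Legendre polynomial `P_n` at a `p`-adic number. -/
noncomputable def legendreP (n : ℕ) (X : ℚ_[p]) : ℚ_[p] :=
  ∑ k ∈ range (n + 1), (n.choose k : ℚ_[p]) * ((n + k).choose k : ℚ_[p]) * ((X - 1) / 2) ^ k

/-- The Legendre symbol of the residue modulo `p` of a `p`-adic integer. -/
noncomputable def leg (a : ℤ_[p]) : ℤ := quadraticChar (ZMod p) (PadicInt.toZMod a)

/-- Congruence modulo `p^n ℤ_p` of two `p`-adic numbers. -/
def Cong (n : ℕ) (a b : ℚ_[p]) : Prop := ∃ c : ℤ_[p], a - b = (p : ℚ_[p]) ^ n * (c : ℚ_[p])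

theorem red_toZModPow (z : ℤ_[p]) :
    Pool.Agent.Q267.CDE.red p (PadicInt.toZModPow 2 z) = PadicInt.toZMod z := by
  have h := PadicInt.toZMod_spec z
  rw [PadicInt.maximalIdeal_eq_span_p, Ideal.mem_span_singleton] at h
  obtain ⟨w, hw⟩ := h
  obtain ⟨n, hn⟩ : ∃ n : ℕ, (ZMod.cast (PadicInt.toZMod z) : ℤ_[p]) = (n : ℤ_[p]) := by
    have : NeZero p := ⟨hp.out.ne_zero⟩
    exact ⟨(PadicInt.toZMod z).val, (ZMod.natCast_val _).symm⟩
  have hz : z = (n : ℤ_[p]) + p * w := by rw [← hn]; linear_combination hw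
  rw [hz]
  simp only [map_add, map_mul, map_natCast, ZMod.natCast_self, zero_mul, add_zero]

/-- **Q1.** -/
theorem result (h15 : p % 15 = 1 ∨ p % 15 = 4) (x y : ℤ) (hxy : (p : ℤ) = x ^ 2 + 15 * y ^ 2)
    (s t : ℤ_[p]) (hs : s ^ 2 = -15) (ht : t ^ 2 = -3) :
    Cong p 2 (legendreP p ((p - 1) / 2) (7 * (s : ℚ_[p]) + 16 * (t : ℚ_[p])))
      ((leg p (-s) : ℚ_[p]) * (jacobiSym x 15 : ℚ_[p]) * (2 * (x : ℚ_[p]) - (p : ℚ_[p]) / (2 * (x : ℚ_[p])))) := by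
  have h11 : 11 < p := by
    have h2 := hp.out.two_le
    by_contra h
    have : p = 4 := by omega
    subst this
    exact absurd hp.out (by norm_num)
  have hodd : p % 2 = 1 := by
    rcases hp.out.eq_two_or_odd with h | h
    · omega
    · exact h
  set m := (p - 1) / 2 with hm
  have hpm : p = 2 * m + 1 := by omega
  have hu2 : ∀ n : ℤ, ¬ (p : ℤ) ∣ n → IsUnit (n : ℤ_[p]) := by
    intro n hn
    rw [PadicInt.isUnit_iff]
    exact (PadicInt.norm_intCast_eq_one_iff).mpr ((Nat.prime_iff_prime_int.mp hp.out).coprime_iff_not_dvd.mpr hn |>.symm)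
  have hx : IsUnit ((x : ℤ) : ℤ_[p]) := hu2 x (Pool.Agent.T2h13.SC.ndvd_u p h11 x y hxy)
  have h2u : IsUnit ((2 : ℤ) : ℤ_[p]) := hu2 2 (by
    intro h
    have := Int.le_of_dvd (by norm_num) h
    omega)
  push_cast at h2u
  obtain ⟨i, hi⟩ : ∃ i : ℤ_[p], 2 * i = 1 := by
    obtain ⟨w, hw⟩ := h2u
    exact ⟨((w⁻¹ : (ℤ_[p])ˣ) : ℤ_[p]), by rw [← hw]; exact w.mul_inv⟩
  obtain ⟨g, hg⟩ : ∃ g : ℤ_[p], (2 * (x : ℤ_[p])) * g = 1 := by
    obtain ⟨w, hw⟩ := h2u.mul hx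
    exact ⟨((w⁻¹ : (ℤ_[p])ˣ) : ℤ_[p]), by rw [← hw]; exact w.mul_inv⟩
  set φ : ℤ_[p] →+* ZMod (p ^ 2) := PadicInt.toZModPow 2 with hφ
  have hs' : (φ s) ^ 2 = -15 := by rw [← map_pow, hs, map_neg, map_ofNat]
  have ht' : (φ t) ^ 2 = -3 := by rw [← map_pow, ht, map_neg, map_ofNat]
  have hi' : 2 * (φ i) = 1 := by
    have := congrArg φ hi
    rwa [map_mul, map_ofNat, map_one] at this
  have key := Pool.Agent.T2h13.SC.leg15 p m hpm h11 x y hxy (by omega) hs' ht' hi'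
  set Φ : ℤ_[p] := ∑ k ∈ range (m + 1), (Pool.Agent.Q267.Seven.dl m k : ℤ_[p]) *
    (i * (1 - 7 * s - 16 * t)) ^ k with hΦ
  have hleg : quadraticChar (ZMod p) (-(Pool.Agent.Q267.CDE.red p (φ s))) = leg p (-s) := by
    unfold leg
    rw [red_toZModPow, map_neg PadicInt.toZMod s]
  have e1 : φ Φ = ∑ k ∈ range (m + 1), (Pool.Agent.Q267.Seven.dl m k : ZMod (p ^ 2)) *
      (φ i * (1 - 7 * φ s - 16 * φ t)) ^ k := by
    rw [hΦ]
    simp only [map_sum, map_mul, map_pow, map_sub, map_one, map_ofNat, map_intCast]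
  rw [hleg] at key
  have hker : φ (2 * (x : ℤ_[p]) * Φ -
      ((leg p (-s) * jacobiSym x 15 : ℤ) : ℤ_[p]) * (4 * (x : ℤ_[p]) ^ 2 - p)) = 0 := by
    rw [map_sub, sub_eq_zero, map_mul, map_mul, map_mul, map_sub, map_mul, map_pow, map_intCast,
      map_intCast, map_natCast, map_ofNat, map_ofNat, e1]
    exact key
  have hmem : (2 * (x : ℤ_[p]) * Φ -
      ((leg p (-s) * jacobiSym x 15 : ℤ) : ℤ_[p]) * (4 * (x : ℤ_[p]) ^ 2 - p)) ∈
      RingHom.ker (PadicInt.toZModPow 2 : ℤ_[p] →+* ZMod (p ^ 2)) := hker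
  rw [PadicInt.ker_toZModPow, Ideal.mem_span_singleton] at hmem
  obtain ⟨c, hc⟩ := hmem
  have hP : legendreP p m (7 * (s : ℚ_[p]) + 16 * (t : ℚ_[p])) = (Φ : ℚ_[p]) := by
    have hiQ : (2 : ℚ_[p]) * (i : ℚ_[p]) = 1 := by exact_mod_cast congrArg (Subtype.val) hi
    have hco : ∀ z : ℤ_[p], (z : ℚ_[p]) = PadicInt.Coe.ringHom z := fun z => rfl
    unfold legendreP
    rw [hΦ, hco (∑ k ∈ range (m + 1), _), map_sum]
    refine sum_congr rfl fun k _ => ?_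
    rw [map_mul, map_pow, map_mul, map_sub, map_sub, map_mul, map_mul, map_one, map_ofNat, map_ofNat,
      map_intCast, ← hco, ← hco, ← hco]
    have e3 : (7 * (s : ℚ_[p]) + 16 * (t : ℚ_[p]) - 1) / 2 =
        -((i : ℚ_[p]) * (1 - 7 * (s : ℚ_[p]) - 16 * (t : ℚ_[p]))) := by
      rw [div_eq_iff (two_ne_zero)]
      linear_combination (1 - 7 * (s : ℚ_[p]) - 16 * (t : ℚ_[p])) * hiQ
    rw [e3, neg_pow]
    unfold Pool.Agent.Q267.Seven.dl
    push_cast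
    ring
  rw [hP]
  have hgQ : (2 * (x : ℚ_[p])) * (g : ℚ_[p]) = 1 := by exact_mod_cast congrArg (Subtype.val) hg
  have h2x : (2 * (x : ℚ_[p])) ≠ 0 := left_ne_zero_of_mul_eq_one hgQ
  have hcQ : 2 * (x : ℚ_[p]) * (Φ : ℚ_[p]) - ((leg p (-s) : ℚ_[p]) * (jacobiSym x 15 : ℚ_[p])) *
      (4 * (x : ℚ_[p]) ^ 2 - (p : ℚ_[p])) = (p : ℚ_[p]) ^ 2 * (c : ℚ_[p]) := by
    exact_mod_cast congrArg (Subtype.val) hc
  refine ⟨c * g, ?_⟩
  push_cast
  have hinv : (p : ℚ_[p]) / (2 * (x : ℚ_[p])) = (p : ℚ_[p]) * (g : ℚ_[p]) := by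
    rw [div_eq_iff h2x]
    linear_combination (-(p : ℚ_[p])) * hgQ
  rw [hinv]
  linear_combination (g : ℚ_[p]) * hcQ - ((Φ : ℚ_[p]) - (leg p (-s) : ℚ_[p]) * (jacobiSym x 15 : ℚ_[p]) * 2 * (x : ℚ_[p])) * hgQ

end Pool.Agent.Results.MP_df49e3_nt.LegendreFifteen
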